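import Mathlib

/-!
# Sparse families (JOB 5 for helper14)

A union bound over the functions `Fin m → F`: a large set `F` contains `m` elements such that no
injective tuple of them is bad.
-/

set_option autoImplicit false

namespace Pool.Agent.L5helper14.AW

theorem sparse_family {α : Type} [DecidableEq α] (W F : Finset α) (hF : F ⊆ W) (hF0 : F.Nonempty) (r m : ℕ)
    (Bad : (Fin r → α) → Prop) [DecidablePred Bad] (η : ℝ)
    (hη : (((Fintype.piFinset fun _ : Fin r => W).filter Bad).card : ℝ) ≤ η * (W.card : ℝ) ^ r)
    (h : (m : ℝ) ^ 2 / F.card + (m : ℝ) ^ r * η * ((W.card : ℝ) / F.card) ^ r < 1) :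
    ∃ G ⊆ F, G.card = m ∧ ∀ u : Fin r → α, Function.Injective u → (∀ i, u i ∈ G) → ¬ Bad u := by
  classical
  have hFpos : (0 : ℝ) < F.card := by exact_mod_cast hF0.card_pos
  set P : Finset (Fin m → α) := Fintype.piFinset fun _ : Fin m => F with hP
  have hPcard : (P.card : ℝ) = (F.card : ℝ) ^ m := by
    simp [hP, Fintype.card_piFinset]
  -- (a) two coordinates equal
  have ha : ∀ i j : Fin m, i ≠ j →
      ((P.filter fun f => f i = f j).card : ℝ) ≤ (F.card : ℝ) ^ m / F.card := by
    intro i j hij
    rw [le_div_iff₀ hFpos, ← hPcard]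
    have : (P.filter fun f => f i = f j).card * F.card ≤ P.card := by
      rw [← Finset.card_product]
      refine Finset.card_le_card_of_injOn (fun p => Function.update p.1 j p.2) ?_ ?_
      · rintro ⟨f, x⟩ hp
        simp only [Finset.coe_product, Set.mem_prod, Finset.mem_coe, Finset.mem_filter, hP,
          Fintype.mem_piFinset] at hp
        simp only [hP, Finset.mem_coe, Fintype.mem_piFinset]
        intro a
        by_cases haj : a = j
        · subst haj; simpa using hp.2
        · simpa [Function.update_of_ne haj] using hp.1.1 a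
      · rintro ⟨f, x⟩ hp ⟨g, y⟩ hq hfg
        simp only [Finset.coe_product, Set.mem_prod, Finset.mem_coe, Finset.mem_filter] at hp hq
        simp only at hfg
        have hx : x = y := by simpa using congrFun hfg j
        have hne : ∀ a, a ≠ j → f a = g a := by
          intro a haj
          simpa [Function.update_of_ne haj] using congrFun hfg a
        refine Prod.ext ?_ hx
        funext a
        by_cases haj : a = j
        · subst haj
          show f a = g a
          rw [← hp.1.2, ← hq.1.2]
          exact hne i hij
        · exact hne a haj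
    exact_mod_cast this
  -- (b) a bad tuple at the places `σ`
  have hb : ∀ σ : Fin r → Fin m, Function.Injective σ →
      ((P.filter fun f => Bad (f ∘ σ)).card : ℝ) ≤
        η * (W.card : ℝ) ^ r * (F.card : ℝ) ^ m / (F.card : ℝ) ^ r := by
    intro σ hσ
    rw [le_div_iff₀ (pow_pos hFpos r)]
    have h1 : (P.filter fun f => Bad (f ∘ σ)).card * F.card ^ r ≤
        ((Fintype.piFinset fun _ : Fin r => W).filter Bad).card * P.card := by
      have hc : F.card ^ r = (Fintype.piFinset fun _ : Fin r => F).card := by
        simp [Fintype.card_piFinset]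
      rw [hc, ← Finset.card_product, ← Finset.card_product]
      refine Finset.card_le_card_of_injOn
        (fun p => (p.1 ∘ σ, Function.extend σ p.2 p.1)) ?_ ?_
      · rintro ⟨f, g⟩ hp
        simp only [Finset.coe_product, Set.mem_prod, Finset.mem_coe, Finset.mem_filter, hP,
          Fintype.mem_piFinset] at hp
        simp only [Finset.coe_product, Set.mem_prod, Finset.mem_coe, Finset.mem_filter, hP,
          Fintype.mem_piFinset]
        refine ⟨⟨fun i => hF (hp.1.1 _), hp.1.2⟩, ?_⟩
        intro a
        by_cases hex : ∃ i, σ i = a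
        · obtain ⟨i, rfl⟩ := hex
          rw [hσ.extend_apply]
          exact hp.2 i
        · rw [Function.extend_apply' _ _ _ hex]
          exact hp.1.1 a
      · rintro ⟨f, g⟩ hp ⟨f', g'⟩ hq hfg
        simp only [Prod.mk.injEq] at hfg
        obtain ⟨e1, e2⟩ := hfg
        have hg : g = g' := by
          funext i
          have := congrFun e2 (σ i)
          rwa [hσ.extend_apply, hσ.extend_apply] at this
        refine Prod.ext ?_ hg
        funext a
        by_cases hex : ∃ i, σ i = a
        · obtain ⟨i, rfl⟩ := hex
          exact congrFun e1 i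
        · have := congrFun e2 a
          rwa [Function.extend_apply' _ _ _ hex, Function.extend_apply' _ _ _ hex] at this
    have h2 : ((P.filter fun f => Bad (f ∘ σ)).card : ℝ) * (F.card : ℝ) ^ r ≤
        (((Fintype.piFinset fun _ : Fin r => W).filter Bad).card : ℝ) * P.card := by
      exact_mod_cast h1
    refine h2.trans ?_
    rw [hPcard]
    exact mul_le_mul_of_nonneg_right hη (by positivity)
  -- the union bound
  by_contra hcon
  push Not at hcon
  set A : Finset (Fin m → α) := (Finset.univ.filter fun p : Fin m × Fin m => p.1 ≠ p.2).biUnion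
    fun p => P.filter fun f => f p.1 = f p.2 with hA
  set B : Finset (Fin m → α) :=
    (Finset.univ.filter fun σ : Fin r → Fin m => Function.Injective σ).biUnion
    fun σ => P.filter fun f => Bad (f ∘ σ) with hB
  have hsub : P ⊆ A ∪ B := by
    intro f hf
    rw [Finset.mem_union]
    by_cases hinj : Function.Injective f
    · right
      have hfF : ∀ a, f a ∈ F := Fintype.mem_piFinset.1 hf
      obtain ⟨u, hu, huG, hbad⟩ := hcon (Finset.univ.image f)
        (by
          intro x hx
          obtain ⟨a, -, rfl⟩ := Finset.mem_image.1 hx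
          exact hfF a)
        (by rw [Finset.card_image_of_injective _ hinj]; simp)
      have hex : ∀ i, ∃ a, f a = u i := fun i => by
        obtain ⟨a, -, h⟩ := Finset.mem_image.1 (huG i)
        exact ⟨a, h⟩
      choose σ hσ using hex
      have hσi : Function.Injective σ := by
        intro i j hij
        apply hu
        rw [← hσ i, ← hσ j, hij]
      rw [hB, Finset.mem_biUnion]
      refine ⟨σ, by simp [hσi], ?_⟩
      rw [Finset.mem_filter]
      refine ⟨hf, ?_⟩
      have : f ∘ σ = u := funext hσ
      rw [this]
      exact hbad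
    · left
      rw [Function.not_injective_iff] at hinj
      obtain ⟨i, j, hij, hne⟩ := hinj
      rw [hA, Finset.mem_biUnion]
      exact ⟨(i, j), by simp [hne], by rw [Finset.mem_filter]; exact ⟨hf, hij⟩⟩
  have hAc : (A.card : ℝ) ≤ (m : ℝ) ^ 2 * ((F.card : ℝ) ^ m / F.card) := by
    have h1 : (A.card : ℝ) ≤ ∑ p ∈ Finset.univ.filter fun p : Fin m × Fin m => p.1 ≠ p.2,
        ((P.filter fun f => f p.1 = f p.2).card : ℝ) := by
      exact_mod_cast Finset.card_biUnion_le
    refine h1.trans ?_
    refine (Finset.sum_le_card_nsmul _ _ _ fun p hp => ha p.1 p.2 ?_).trans ?_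
    · simpa using hp
    · rw [nsmul_eq_mul]
      refine mul_le_mul_of_nonneg_right ?_ (by positivity)
      have : (Finset.univ.filter fun p : Fin m × Fin m => p.1 ≠ p.2).card ≤ m ^ 2 := by
        refine (Finset.card_filter_le _ _).trans ?_
        simp [sq]
      exact_mod_cast this
  have hη0 : 0 ≤ η * (W.card : ℝ) ^ r := le_trans (Nat.cast_nonneg _) hη
  have hBc : (B.card : ℝ) ≤ (m : ℝ) ^ r *
      (η * (W.card : ℝ) ^ r * (F.card : ℝ) ^ m / (F.card : ℝ) ^ r) := by
    have h1 : (B.card : ℝ) ≤ ∑ σ ∈ Finset.univ.filter fun σ : Fin r → Fin m => Function.Injective σ,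
        ((P.filter fun f => Bad (f ∘ σ)).card : ℝ) := by
      exact_mod_cast Finset.card_biUnion_le
    refine h1.trans ?_
    refine (Finset.sum_le_card_nsmul _ _ _ fun σ hσ => hb σ ?_).trans ?_
    · simpa using hσ
    · rw [nsmul_eq_mul]
      refine mul_le_mul_of_nonneg_right ?_ (by positivity)
      have : (Finset.univ.filter fun σ : Fin r → Fin m => Function.Injective σ).card ≤ m ^ r := by
        refine (Finset.card_filter_le _ _).trans ?_
        simp
      exact_mod_cast this
  have hfin : (P.card : ℝ) ≤ A.card + B.card := by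
    have := (Finset.card_le_card hsub).trans (Finset.card_union_le A B)
    exact_mod_cast this
  have hFm : (0 : ℝ) < (F.card : ℝ) ^ m := pow_pos hFpos m
  have key : (F.card : ℝ) ^ m ≤
      ((m : ℝ) ^ 2 / F.card + (m : ℝ) ^ r * η * ((W.card : ℝ) / F.card) ^ r) *
        (F.card : ℝ) ^ m := by
    calc (F.card : ℝ) ^ m = P.card := hPcard.symm
      _ ≤ A.card + B.card := hfin
      _ ≤ (m : ℝ) ^ 2 * ((F.card : ℝ) ^ m / F.card) + (m : ℝ) ^ r *
          (η * (W.card : ℝ) ^ r * (F.card : ℝ) ^ m / (F.card : ℝ) ^ r) := add_le_add hAc hBc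
      _ = _ := by
        rw [div_pow]
        field_simp
  have : (F.card : ℝ) ^ m < (F.card : ℝ) ^ m := by
    calc (F.card : ℝ) ^ m ≤ _ := key
      _ < 1 * (F.card : ℝ) ^ m := mul_lt_mul_of_pos_right h hFm
      _ = _ := one_mul _
  exact lt_irrefl _ this

end Pool.Agent.L5helper14.AW
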